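import Mathlib

set_option autoImplicit false

open Filter Topology

namespace Pool.Agent.Results.MP_e54d61_gt.ConjugateToInverse

noncomputable section

/-- A flow on `X`: a one-parameter group of homeomorphisms, jointly continuous. -/
structure Flow (X : Type) [TopologicalSpace X] where
  toFun : ℝ → (X ≃ₜ X)
  map_add : ∀ s t : ℝ, toFun (s + t) = toFun s * toFun t
  cont : Continuous (fun p : ℝ × X => toFun p.1 p.2)

/-- `s` is the time-one map of a flow. -/
def IsTimeOne {X : Type} [TopologicalSpace X] (s : X ≃ₜ X) : Prop :=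
  ∃ φ : Flow X, φ.toFun 1 = s

/-- The group generated by the time-one maps of flows. -/
def FlowGroup (X : Type) [TopologicalSpace X] : Subgroup (X ≃ₜ X) :=
  Subgroup.closure {s | IsTimeOne s}

/-- The flow length of `h`: the least number of time-one maps of flows whose product is `h`
(`⊤` if there is no such product). -/
def flowLength {X : Type} [TopologicalSpace X] (h : X ≃ₜ X) : ℕ∞ :=
  ⨅ l : {l : List (X ≃ₜ X) // (∀ s ∈ l, IsTimeOne s) ∧ l.prod = h}, (l.1.length : ℕ∞)

/-- The homeomorphisms of `X` isotopic to the identity. -/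
def Homeo0 (X : Type) [TopologicalSpace X] : Subgroup (X ≃ₜ X) where
  carrier := {f | ∃ F : unitInterval → (X ≃ₜ X), F 0 = 1 ∧ F 1 = f ∧
    Continuous (fun p : unitInterval × X => F p.1 p.2) ∧
    Continuous (fun p : unitInterval × X => (F p.1)⁻¹ p.2)}
  one_mem' := ⟨fun _ => 1, rfl, rfl, continuous_snd, continuous_snd⟩
  mul_mem' := by
    rintro f g ⟨F, hF0, hF1, hFc, hFi⟩ ⟨G, hG0, hG1, hGc, hGi⟩
    refine ⟨fun t => F t * G t, by simp [hF0, hG0], by simp [hF1, hG1], ?_, ?_⟩
    · exact hFc.comp (continuous_fst.prodMk hGc)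
    · have : (fun p : unitInterval × X => (F p.1 * G p.1)⁻¹ p.2)
          = fun p : unitInterval × X => (G p.1)⁻¹ ((F p.1)⁻¹ p.2) := by
        funext p
        rw [mul_inv_rev]
        rfl
      rw [this]
      exact hGi.comp (continuous_fst.prodMk hFi)
  inv_mem' := by
    rintro f ⟨F, hF0, hF1, hFc, hFi⟩
    refine ⟨fun t => (F t)⁻¹, by simp [hF0], by simp [hF1], hFi, ?_⟩
    simpa using hFc

variable {X : Type} [TopologicalSpace X]

theorem Flow.map_zero (φ : Flow X) : φ.toFun 0 = 1 := by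
  have h := φ.map_add 0 0
  rw [add_zero] at h
  exact (left_eq_mul.mp h)

theorem Flow.map_neg (φ : Flow X) (t : ℝ) : φ.toFun (-t) = (φ.toFun t)⁻¹ := by
  have h := φ.map_add (-t) t
  rw [neg_add_cancel, φ.map_zero] at h
  exact eq_inv_of_mul_eq_one_left h.symm

theorem IsTimeOne.inv {s : X ≃ₜ X} (hs : IsTimeOne s) : IsTimeOne s⁻¹ := by
  obtain ⟨φ, rfl⟩ := hs
  refine ⟨⟨fun t => φ.toFun (-t), ?_, ?_⟩, ?_⟩
  · intro s t
    rw [← φ.map_add]
    congr 1
    ring
  · exact φ.cont.comp ((continuous_neg.comp continuous_fst).prodMk continuous_snd)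
  · exact φ.map_neg 1

theorem IsTimeOne.conj {s : X ≃ₜ X} (hs : IsTimeOne s) (g : X ≃ₜ X) : IsTimeOne (g * s * g⁻¹) := by
  obtain ⟨φ, rfl⟩ := hs
  refine ⟨⟨fun t => g * φ.toFun t * g⁻¹, ?_, ?_⟩, rfl⟩
  · intro s t
    rw [φ.map_add]
    group
  · exact g.continuous.comp (φ.cont.comp (continuous_fst.prodMk
      ((g⁻¹ : X ≃ₜ X).continuous.comp continuous_snd)))

theorem exists_list {h : X ≃ₜ X} (hh : flowLength h ≠ ⊤) :
    ∃ l : List (X ≃ₜ X), (∀ s ∈ l, IsTimeOne s) ∧ l.prod = h ∧ (l.length : ℕ∞) = flowLength h := by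
  have hne : Nonempty {l : List (X ≃ₜ X) // (∀ s ∈ l, IsTimeOne s) ∧ l.prod = h} := by
    by_contra hcon
    rw [not_nonempty_iff] at hcon
    exact hh (by unfold flowLength; exact iInf_of_empty _)
  obtain ⟨l, hl⟩ := ENat.exists_eq_iInf
    (fun l : {l : List (X ≃ₜ X) // (∀ s ∈ l, IsTimeOne s) ∧ l.prod = h} => (l.1.length : ℕ∞))
  exact ⟨l.1, l.2.1, l.2.2, hl⟩

theorem flowLength_le {h : X ≃ₜ X} (l : List (X ≃ₜ X)) (hl : ∀ s ∈ l, IsTimeOne s)
    (hp : l.prod = h) : flowLength h ≤ l.length :=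
  iInf_le (fun l : {l : List (X ≃ₜ X) // (∀ s ∈ l, IsTimeOne s) ∧ l.prod = h} =>
    (l.1.length : ℕ∞)) ⟨l, hl, hp⟩

theorem flowLength_mul_le (f g : X ≃ₜ X) : flowLength (f * g) ≤ flowLength f + flowLength g := by
  by_cases hf : flowLength f = ⊤
  · simp [hf]
  by_cases hg : flowLength g = ⊤
  · simp [hg]
  obtain ⟨l, hl, hlp, hll⟩ := exists_list hf
  obtain ⟨m, hm, hmp, hml⟩ := exists_list hg
  rw [← hll, ← hml]
  have := flowLength_le (h := f * g) (l ++ m) (by
    intro s hs
    rcases List.mem_append.mp hs with h | h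
    · exact hl s h
    · exact hm s h) (by rw [List.prod_append, hlp, hmp])
  simpa using this

theorem flowLength_inv_le (f : X ≃ₜ X) : flowLength f⁻¹ ≤ flowLength f := by
  by_cases hf : flowLength f = ⊤
  · simp [hf]
  obtain ⟨l, hl, hlp, hll⟩ := exists_list hf
  rw [← hll]
  have := flowLength_le (h := f⁻¹) ((l.map fun s => s⁻¹).reverse) (by
    intro s hs
    rw [List.mem_reverse, List.mem_map] at hs
    obtain ⟨a, ha, rfl⟩ := hs
    exact (hl a ha).inv) (by rw [← List.prod_inv_reverse, hlp])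
  simpa using this

theorem flowLength_conj_le (f g : X ≃ₜ X) : flowLength (g * f * g⁻¹) ≤ flowLength f := by
  by_cases hf : flowLength f = ⊤
  · simp [hf]
  obtain ⟨l, hl, hlp, hll⟩ := exists_list hf
  rw [← hll]
  have := flowLength_le (h := g * f * g⁻¹) (l.map fun s => MulAut.conj g s) (by
    intro s hs
    rw [List.mem_map] at hs
    obtain ⟨a, ha, rfl⟩ := hs
    exact (hl a ha).conj g) (by
      have h1 := (map_list_prod (MulAut.conj g).toMonoidHom l)
      have h2 : (l.map fun s => MulAut.conj g s).prod = MulAut.conj g l.prod := h1.symm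
      rw [h2, hlp]
      rfl)
  simpa using this

theorem flowLength_ne_top {h : X ≃ₜ X} (hh : h ∈ FlowGroup X) : flowLength h ≠ ⊤ := by
  refine Subgroup.closure_induction (p := fun g _ => flowLength g ≠ ⊤) ?_ ?_ ?_ ?_ hh
  · intro s hs
    have := flowLength_le (h := s) [s] (by simpa using hs) (by simp)
    exact ne_top_of_le_ne_top (ENat.natCast_ne_top _) this
  · have := flowLength_le (h := (1 : X ≃ₜ X)) [] (by simp) (by simp)
    exact ne_top_of_le_ne_top (ENat.natCast_ne_top _) this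
  · intro a b _ _ ha hb
    exact ne_top_of_le_ne_top (WithTop.add_ne_top.mpr ⟨ha, hb⟩) (flowLength_mul_le a b)
  · intro a _ ha
    exact ne_top_of_le_ne_top ha (flowLength_inv_le a)

theorem pow_conj {f h : X ≃ₜ X} (hinv : h * f * h⁻¹ = f⁻¹) (n : ℕ) :
    f ^ (2 * n) = (f ^ n * h * (f ^ n)⁻¹) * h⁻¹ := by
  have h1 : h * (f ^ n)⁻¹ * h⁻¹ = f ^ n := by
    have h2 : h * f ^ n * h⁻¹ = (f ^ n)⁻¹ := by
      rw [← conj_pow, hinv, inv_pow]
    have h3 : (h * f ^ n * h⁻¹)⁻¹ = h * (f ^ n)⁻¹ * h⁻¹ := by group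
    rw [← h3, h2, inv_inv]
  calc f ^ (2 * n) = f ^ n * f ^ n := by rw [two_mul, pow_add]
    _ = f ^ n * (h * (f ^ n)⁻¹ * h⁻¹) := by rw [h1]
    _ = (f ^ n * h * (f ^ n)⁻¹) * h⁻¹ := by group

theorem bound {f h : X ≃ₜ X} (hinv : h * f * h⁻¹ = f⁻¹) (n : ℕ) :
    flowLength (f ^ n) ≤ 2 * flowLength h + flowLength f := by
  have heven : ∀ m : ℕ, flowLength (f ^ (2 * m)) ≤ 2 * flowLength h := by
    intro m
    rw [pow_conj hinv m, two_mul]
    exact (flowLength_mul_le _ _).trans
      (add_le_add (flowLength_conj_le _ _) (flowLength_inv_le _))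
  rcases Nat.even_or_odd' n with ⟨m, rfl | rfl⟩
  · exact (heven m).trans le_self_add
  · rw [pow_add, pow_one]
    exact (flowLength_mul_le _ _).trans (add_le_add (heven m) le_rfl)

theorem isTimeOne_mem {s : X ≃ₜ X} (hs : IsTimeOne s) : s ∈ Homeo0 X := by
  obtain ⟨φ, rfl⟩ := hs
  refine ⟨fun t => φ.toFun (t : ℝ), ?_, ?_, ?_, ?_⟩
  · simpa using φ.map_zero
  · simp
  · exact φ.cont.comp ((continuous_subtype_val.comp continuous_fst).prodMk continuous_snd)
  · have : (fun p : unitInterval × X => (φ.toFun (p.1 : ℝ))⁻¹ p.2)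
        = fun p : unitInterval × X => φ.toFun (-(p.1 : ℝ)) p.2 := by
      funext p
      rw [φ.map_neg]
    rw [this]
    exact φ.cont.comp ((continuous_neg.comp
      (continuous_subtype_val.comp continuous_fst)).prodMk continuous_snd)

theorem flowGroup_le : FlowGroup X ≤ Homeo0 X :=
  (Subgroup.closure_le _).mpr fun _ hs => isTimeOne_mem hs

theorem flowGroup_normal : (FlowGroup X).Normal := by
  refine ⟨fun n hn g => ?_⟩
  refine Subgroup.closure_induction (p := fun a _ => g * a * g⁻¹ ∈ FlowGroup X) ?_ ?_ ?_ ?_ hn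
  · intro s hs
    exact Subgroup.subset_closure (IsTimeOne.conj hs g)
  · simp [one_mem]
  · intro a b _ _ ha hb
    have : g * (a * b) * g⁻¹ = (g * a * g⁻¹) * (g * b * g⁻¹) := by group
    rw [this]
    exact mul_mem ha hb
  · intro a _ ha
    have : g * a⁻¹ * g⁻¹ = (g * a * g⁻¹)⁻¹ := by group
    rw [this]
    exact inv_mem ha

theorem eq_of_simple (hs : IsSimpleGroup (Homeo0 X)) (hn : ∃ s : X ≃ₜ X, IsTimeOne s ∧ s ≠ 1) :
    FlowGroup X = Homeo0 X := by
  apply le_antisymm flowGroup_le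
  have := flowGroup_normal (X := X)
  have hN : ((FlowGroup X).subgroupOf (Homeo0 X)).Normal := inferInstance
  rcases hs.eq_bot_or_eq_top_of_normal _ hN with h | h
  · obtain ⟨s, hs1, hs2⟩ := hn
    exfalso
    have hmem : (⟨s, isTimeOne_mem hs1⟩ : Homeo0 X) ∈ (FlowGroup X).subgroupOf (Homeo0 X) := by
      rw [Subgroup.mem_subgroupOf]
      exact Subgroup.subset_closure hs1
    rw [h, Subgroup.mem_bot] at hmem
    exact hs2 (congrArg Subtype.val hmem)
  · exact Subgroup.subgroupOf_eq_top.mp h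

/-- **Q2 is answered in the negative, on every space.**  An element of the group generated by the
time-one maps of flows which is conjugate in that group to its inverse has bounded flow length
along its powers, hence stable flow length zero. -/
theorem result : ∀ (X : Type) [TopologicalSpace X],
    (FlowGroup X ≤ Homeo0 X) ∧
    (IsSimpleGroup (Homeo0 X) → (∃ s : X ≃ₜ X, IsTimeOne s ∧ s ≠ 1) →
      FlowGroup X = Homeo0 X) ∧
    ∀ f ∈ FlowGroup X, ∀ h ∈ FlowGroup X, h * f * h⁻¹ = f⁻¹ →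
      (flowLength f ≠ ⊤ ∧ flowLength h ≠ ⊤) ∧
      (∀ n : ℕ, flowLength (f ^ n) ≤ 2 * flowLength h + flowLength f) ∧
      Tendsto (fun n : ℕ => ((flowLength (f ^ n)).toENNReal : ENNReal) / (n : ENNReal))
        atTop (𝓝 0) := by
  intro X _
  refine ⟨flowGroup_le, eq_of_simple, ?_⟩
  intro f hf h hh hinv
  have hft := flowLength_ne_top hf
  have hht := flowLength_ne_top hh
  refine ⟨⟨hft, hht⟩, bound hinv, ?_⟩
  have hC : ((2 * flowLength h + flowLength f : ℕ∞)).toENNReal ≠ ⊤ := by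
    rw [ne_eq, ENat.toENNReal_eq_top]
    exact WithTop.add_ne_top.mpr ⟨WithTop.mul_ne_top (by decide) hht, hft⟩
  have hlim : Tendsto (fun n : ℕ => ((2 * flowLength h + flowLength f : ℕ∞)).toENNReal
      / (n : ENNReal)) atTop (𝓝 0) := by
    have h := ENNReal.Tendsto.const_div (a := ((2 * flowLength h + flowLength f : ℕ∞)).toENNReal)
      ENNReal.tendsto_nat_nhds_top (Or.inr hC)
    rwa [ENNReal.div_top] at h
  refine tendsto_of_tendsto_of_tendsto_of_le_of_le tendsto_const_nhds hlim (fun n => bot_le) ?_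
  intro n
  exact ENNReal.div_le_div_right (ENat.toENNReal_le.mpr (bound hinv n)) _

end

end Pool.Agent.Results.MP_e54d61_gt.ConjugateToInverse
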